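import Pool.Agent.TH290.FC.Base

/-!
# A non-transverse heterodimensional cycle that cannot be made robust

There is a `C^∞` diffeomorphism `f` of the torus `𝕋³` with a non-transverse heterodimensional cycle
associated with two fixed saddles `P`, `Q` of indices `2` and `1`, and a `C¹` neighbourhood of `f`
in which, for every `1 ≤ r ≤ ∞`, no `C^r` diffeomorphism `g` has a `C^r`-robust heterodimensional
cycle (transverse or not) associated with transitive hyperbolic sets `Λ ∋ P_g` and `Γ ∋ Q_g`.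
This answers the question of the problem in the negative, for all `r` at once.

The definitions `E` (the space `ℝ³`), `Ltc` (the lattice `ℤ³`), `MM` (the torus `ℝ³/ℤ³`), `pr` (the
covering map) and `Stab` are in `Pool/Agent/TH290/FC/Defs.lean`; the definitions `IsLift`,
`IsDiffeo` and `CkClose` (the `C^k` distance) are in `Pool/Agent/H728R2/OS/Defs.lean`.

Idea of the construction (in the spirit of the fragile cycles of Bonatti and Díaz). The coordinates
are `(x, c, z)`. In `x` and `z` the map is a strong north-south map composed with a Dehn twist, in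
`c` it is the identity up to a small displacement which makes `c = 0` attracting and `c = 1/2`
repelling at `P = (0, 0, 0)`, and the opposite at `Q = (1/2, 0, 1/2)`. One separatrix of `P` crosses
the stable curve of `Q` at a quasi-transverse point, and a shear creates a heteroclinic point of
`W^u(Q) ∩ W^s(P)`, at which the two surfaces coincide locally, in the column `c ≈ -1/8`. For every
`g` which is `C¹` close to `f` the two curves `W^u(P_g)` and `W^s(Q_g)` have a well defined relative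
position. If `W^u(P_g)` passes strictly above `W^s(Q_g)`, then, by a cone argument, both
separatrices of `P_g` are pushed to the side `c > 0` when they leave `Q_g`, avoid the column and fall
into a trapping region; so `{P_g}` is the only transitive set containing `P_g` and
`W^u(P_g) ∩ W^s(Γ)` is empty. If it passes strictly below, the same holds for the past of the
separatrices of `Q_g`. If the curves meet, an arbitrarily `C^r` small perturbation separates them.
-/

set_option autoImplicit false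

open Set Filter Topology
open Pool.Agent.H728R2.OS (IsLift IsDiffeo CkClose)
open Pool.Agent.TH290.FC

namespace Pool.Agent.Results.MP_4ecd89_an.FragileCycle

section General

variable {V X : Type*} [NormedAddCommGroup V] [NormedSpace ℝ V] [PseudoMetricSpace X]

/-- `W^s(S)`: the points whose forward orbit is asymptotic to the forward orbit of a point of `S`.
The unstable set `W^u(S)` of `f` is `Ws f.symm S`. -/
def Ws (f : X ≃ₜ X) (S : Set X) : Set X :=
  {y | ∃ x ∈ S, Tendsto (fun n : ℕ => dist (f^[n] x) (f^[n] y)) atTop (𝓝 0)}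

/-- `S` is a transitive hyperbolic set of `f` of index `k`: it is compact and invariant, it contains
a dense (forward) orbit, and with `C¹` lifts `F` of `f` and `H` of `f⁻¹` through the covering `π`,
at every point `z` over `S` the tangent space is the direct sum of `E^s = Stab F z`, the vectors `v`
with `Df^n v → 0`, of dimension `k`, and of `E^u = Stab H z`, the vectors with `Df^{-n} v → 0`, and
the two convergences are uniformly exponential. -/
structure TransHyp (π : V → X) (f : X ≃ₜ X) (S : Set X) (k : ℕ) : Prop where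
  compact : IsCompact S
  invariant : f '' S = S
  transitive : ∃ x ∈ S, S ⊆ closure (range fun n : ℕ => f^[n] x)
  hyperbolic : ∃ F H : V → V, ContDiff ℝ 1 F ∧ ContDiff ℝ 1 H ∧ IsLift π F f ∧
    IsLift π H f.symm ∧ ∃ c μ : ℝ, 0 < c ∧ 0 < μ ∧ μ < 1 ∧ ∀ z, π z ∈ S →
      IsCompl (Stab F z) (Stab H z) ∧ Module.finrank ℝ (Stab F z) = k ∧
      ∀ n : ℕ, (∀ v ∈ Stab F z, ‖fderiv ℝ (F^[n]) z v‖ ≤ c * μ ^ n * ‖v‖) ∧
        ∀ v ∈ Stab H z, ‖fderiv ℝ (H^[n]) z v‖ ≤ c * μ ^ n * ‖v‖

/-- There is a tangency `x ∈ W^u(S) ∩ W^s(S')`, where `k` and `l` are the indices of `S` and `S'`.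
The tangent space of `W^u` at `x` is `Stab H z`, the vectors `v` with `Df^{-n} v → 0`, of dimension
`d - k`, the one of `W^s` is `Stab F z`, the vectors with `Df^n v → 0`, of dimension `l`, and the
dimension of the intersection exceeds `max 0 (dim W^u + dim W^s - d)`. -/
def HasTangency (π : V → X) (f : X ≃ₜ X) (S S' : Set X) (k l : ℕ) : Prop :=
  ∃ F H : V → V, ContDiff ℝ 1 F ∧ ContDiff ℝ 1 H ∧ IsLift π F f ∧ IsLift π H f.symm ∧
    ∃ z, π z ∈ Ws f.symm S ∩ Ws f S' ∧
      Module.finrank ℝ (Stab H z) + k = Module.finrank ℝ V ∧ Module.finrank ℝ (Stab F z) = l ∧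
      0 < Module.finrank ℝ (Stab H z ⊓ Stab F z : Submodule ℝ V) ∧
      Module.finrank ℝ (Stab H z) + Module.finrank ℝ (Stab F z) <
        Module.finrank ℝ (Stab H z ⊓ Stab F z : Submodule ℝ V) + Module.finrank ℝ V

/-- `f` has a heterodimensional cycle associated with the transitive hyperbolic sets `Λ` and `Γ` of
indices `k ≠ l`. -/
structure HetCycle (π : V → X) (f : X ≃ₜ X) (Λ Γ : Set X) (k l : ℕ) : Prop where
  hypΛ : TransHyp π f Λ k
  hypΓ : TransHyp π f Γ l
  index_ne : k ≠ l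
  inter₁ : (Ws f.symm Λ ∩ Ws f Γ).Nonempty
  inter₂ : (Ws f.symm Γ ∩ Ws f Λ).Nonempty

/-- `f` has a non-transverse heterodimensional cycle associated with `Λ` and `Γ`: one of the two
intersections contains a tangency. -/
structure NonTransverseCycle (π : V → X) (f : X ≃ₜ X) (Λ Γ : Set X) (k l : ℕ) : Prop where
  cycle : HetCycle π f Λ Γ k l
  tangency : HasTangency π f Λ Γ k l ∨ HasTangency π f Γ Λ l k

/-- `h : Λ → X` is the `ε`-small hyperbolic continuation for `g` of the set `Λ` of `f`: it is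
continuous and injective, it conjugates `f` to `g`, it is `ε`-close to the inclusion, and it is the
only map `ε₀`-close to the inclusion that conjugates `f` to `g`. -/
structure IsContinuation (ε₀ ε : ℝ) (f g : X ≃ₜ X) (Λ : Set X) (h : X → X) : Prop where
  cont : ContinuousOn h Λ
  inj : InjOn h Λ
  conj : ∀ x ∈ Λ, h (f x) = g (h x)
  close : ∀ x ∈ Λ, dist (h x) x < ε
  unique : ∀ h' : X → X, (∀ x ∈ Λ, h' (f x) = g (h' x)) → (∀ x ∈ Λ, dist (h' x) x < ε₀) →
    ∀ x ∈ Λ, h' x = h x

/-- The `C^r` diffeomorphism `g` has a `C^r`-robust heterodimensional cycle associated with `Λ` and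
`Γ`: every `C^r` diffeomorphism `g'` of a `C^r` neighbourhood of `g` has a heterodimensional cycle
associated with the continuations `hΛ '' Λ` and `hΓ '' Γ`; these are arbitrarily small if `g'` is
close to `g`. A neighbourhood is given by finitely many derivatives of order at most `r`. -/
def RobustCycle (π : V → X) (r : ℕ∞) (g : X ≃ₜ X) (Λ Γ : Set X) (k l : ℕ) : Prop :=
  ∃ ε₀ > 0, ∀ ε > 0, ∃ j : ℕ, (j : ℕ∞) ≤ r ∧ ∃ η > 0, ∀ g' : X ≃ₜ X, IsDiffeo π r g' →
    CkClose π j η g g' → ∃ hΛ hΓ : X → X, IsContinuation ε₀ ε g g' Λ hΛ ∧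
      IsContinuation ε₀ ε g g' Γ hΓ ∧ HetCycle π g' (hΛ '' Λ) (hΓ '' Γ) k l

/-- The same for non-transverse heterodimensional cycles. -/
def RobustNonTransverseCycle (π : V → X) (r : ℕ∞) (g : X ≃ₜ X) (Λ Γ : Set X) (k l : ℕ) : Prop :=
  ∃ ε₀ > 0, ∀ ε > 0, ∃ j : ℕ, (j : ℕ∞) ≤ r ∧ ∃ η > 0, ∀ g' : X ≃ₜ X, IsDiffeo π r g' →
    CkClose π j η g g' → ∃ hΛ hΓ : X → X, IsContinuation ε₀ ε g g' Λ hΛ ∧
      IsContinuation ε₀ ε g g' Γ hΓ ∧ NonTransverseCycle π g' (hΛ '' Λ) (hΓ '' Γ) k l

end General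

/-! ### Proof -/

theorem hyp_P : TransHyp pr ff {pr 0} 2 where
  compact := isCompact_singleton
  invariant := by rw [image_singleton, fP]
  transitive := ⟨_, rfl, by
    rw [singleton_subset_iff]
    exact subset_closure ⟨0, rfl⟩⟩
  hyperbolic := ⟨FF, FI, FF1, FI1, ff_lift, ff_lift', 1, 2 / 3, one_pos, by norm_num, by norm_num,
    fun z hz => hypP z hz⟩

theorem hyp_Q : TransHyp pr ff {pr cQ} 1 where
  compact := isCompact_singleton
  invariant := by rw [image_singleton, fQ]
  transitive := ⟨_, rfl, by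
    rw [singleton_subset_iff]
    exact subset_closure ⟨0, rfl⟩⟩
  hyperbolic := ⟨FF, FI, FF1, FI1, ff_lift, ff_lift', 1, 2 / 3, one_pos, by norm_num, by norm_num,
    fun z hz => hypQ z hz⟩

theorem y_mem : pr yT ∈ Ws ff.symm {pr cQ} ∩ Ws ff {pr 0} :=
  ⟨⟨_, rfl, yT_back⟩, ⟨_, rfl, yT_fwd⟩⟩

theorem cycle_f : NonTransverseCycle pr ff {pr 0} {pr cQ} 2 1 where
  cycle :=
    { hypΛ := hyp_P
      hypΓ := hyp_Q
      index_ne := by norm_num
      inter₁ := ⟨pr uT, ⟨_, rfl, uT_back⟩, ⟨_, rfl, uT_fwd⟩⟩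
      inter₂ := ⟨_, y_mem⟩ }
  tangency := by
    right
    have f1 : Module.finrank ℝ (Stab FI yT) = 2 := finrank_two _ ustabY
    have f2 : Module.finrank ℝ (Stab FF yT) = 2 := finrank_two _ stabY
    have f3 : Module.finrank ℝ (Stab FI yT ⊓ Stab FF yT : Submodule ℝ E) = 2 :=
      finrank_two _ fun v => by
        rw [Submodule.mem_inf, ustabY, stabY, and_self_iff]
    have f4 : Module.finrank ℝ E = 3 := by simp
    refine ⟨FF, FI, FF1, FI1, ff_lift, ff_lift', yT, y_mem, ?_, f2, ?_, ?_⟩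
    · rw [f1, f4]
    · rw [f3]; norm_num
    · rw [f1, f2, f3, f4]; norm_num

theorem cont_of {f g : MM ≃ₜ MM} {P Pg : MM} {ε ε₀ : ℝ} (hP : f P = P) (hPg : g Pg = Pg)
    (hd : dist Pg P < ε) (hu : ∀ q, g q = q → dist q P < ε₀ → q = Pg) :
    IsContinuation ε₀ ε f g {P} fun _ => Pg where
  cont := continuousOn_const
  inj := by
    intro x hx y hy _
    rw [mem_singleton_iff] at hx hy
    rw [hx, hy]
  conj := fun _ _ => hPg.symm
  close := fun x hx => by rw [mem_singleton_iff.1 hx]; exact hd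
  unique := fun h' hc hd' x hx => by
    rw [mem_singleton_iff] at hx
    subst hx
    have h1 := hc x rfl
    rw [hP] at h1
    exact hu _ h1.symm (hd' x rfl)

theorem no_robust (S : Sys) (hδ : S.δ < 1 / 10000000) {g : MM ≃ₜ MM} (hG : IsLift pr S.G g)
    (hH : IsLift pr S.H g.symm) (hGc : Continuous S.G) (hHc : Continuous S.H) {r : ℕ∞}
    (hr : 1 ≤ r) (hg : IsDiffeo pr r g) {Λ Γ : Set MM} {k l : ℕ} (hP : pr (PP S) ∈ Λ)
    (hQ : pr (QQ S) ∈ Γ) : ¬ RobustCycle pr r g Λ Γ k l := by
  rintro ⟨ε₀, -, h⟩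
  obtain ⟨j, hj, η, hη, h⟩ := h (1 / 400) (by norm_num)
  obtain ⟨S', g', hG', hH', hg', hc, hN⟩ := exists_pert S hδ hG hH hGc hHc hr hg j hj hη
  obtain ⟨hΛ, hΓ, cΛ, cΓ, cyc⟩ := h g' hg' hc
  have b1 := PP_norm S
  have b2 := PP_norm S'
  have b3 := QQ_norm S
  have b4 := QQ_norm S'
  have d1 := S.δ1
  have d2 := S'.δ1
  have mP : pr (PP S') ∈ hΛ '' Λ := by
    refine ⟨_, hP, P_near S' hG' ?_ ?_⟩
    · have := cΛ.conj _ hP
      rw [gP S hG] at this
      exact this.symm
    · have h1 := cΛ.close _ hP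
      have h2 := dist_triangle (hΛ (pr (PP S))) (pr (PP S)) (pr (PP S'))
      have h3 := dist_pr (PP S) (PP S')
      have h4 := norm_sub_le (PP S) (PP S')
      linarith
  have mQ : pr (QQ S') ∈ hΓ '' Γ := by
    refine ⟨_, hQ, Q_near S' hG' ?_ ?_⟩
    · have := cΓ.conj _ hQ
      rw [gQ S hG] at this
      exact this.symm
    · have h1 := cΓ.close _ hQ
      have h2 := dist_triangle (hΓ (pr (QQ S))) (pr (QQ S)) (pr (QQ S'))
      have h3 := dist_pr (QQ S) (QQ S')
      have h4 := norm_sub_le (QQ S - cQ) (QQ S' - cQ)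
      rw [sub_sub_sub_cancel_right] at h4
      linarith
  obtain ⟨y, hy1, hy2⟩ := cyc.inter₁
  exact no_cycle S' hG' hH' hN cyc.hypΛ.compact cyc.hypΛ.invariant
    (TT_of_dense cyc.hypΛ.invariant cyc.hypΛ.transitive) mP cyc.hypΓ.compact cyc.hypΓ.invariant
    (TT_of_dense cyc.hypΓ.invariant cyc.hypΓ.transitive) mQ y hy1 hy2

/-- There are a `C^∞` diffeomorphism `f` of `𝕋³` and fixed saddles `P`, `Q` of `f` of indices `2`
and `1` with a non-transverse heterodimensional cycle such that every `g` in a `C¹` neighbourhood of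
`f` has unique continuations `P_g = hP P` and `Q_g = hQ Q` of the saddles, and, if `g` is of class
`C^r`, `1 ≤ r ≤ ∞`, then `g` has no `C^r`-robust heterodimensional cycle, in particular no
`C^r`-robust non-transverse heterodimensional cycle, associated with sets `Λ ∋ P_g`, `Γ ∋ Q_g`. -/
theorem result : ∃ (f : MM ≃ₜ MM) (P Q : MM), IsDiffeo pr ⊤ f ∧ f P = P ∧ f Q = Q ∧
    NonTransverseCycle pr f {P} {Q} 2 1 ∧
    ∃ ε₀ > 0, ∀ ε > 0, ∃ δ > 0, ∀ g : MM ≃ₜ MM, IsDiffeo pr 1 g → CkClose pr 1 δ f g →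
      ∃ hP hQ : MM → MM, IsContinuation ε₀ ε f g {P} hP ∧ IsContinuation ε₀ ε f g {Q} hQ ∧
        ∀ r : ℕ∞, 1 ≤ r → IsDiffeo pr r g → ∀ (Λ Γ : Set MM) (k l : ℕ), hP P ∈ Λ → hQ Q ∈ Γ →
          ¬ RobustCycle pr r g Λ Γ k l ∧ ¬ RobustNonTransverseCycle pr r g Λ Γ k l := by
  refine ⟨ff, pr 0, pr cQ, ff_diffeo, fP, fQ, cycle_f, 1 / 200, by norm_num, fun ε hε => ?_⟩
  refine ⟨min (1 / 20000000) (ε / 4), lt_min (by norm_num) (by linarith), fun g hg hc => ?_⟩
  have m1 : min (1 / 20000000) (ε / 4) ≤ 1 / 20000000 := min_le_left _ _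
  have m2 : min (1 / 20000000) (ε / 4) ≤ ε / 4 := min_le_right _ _
  obtain ⟨S, hSδ, hG, hH, hGc, hHc⟩ := exists_sys (by linarith) hg hc
  have b1 := PP_norm S
  have b3 := QQ_norm S
  have δ0 := S.δ0
  rw [hSδ] at b1 b3 δ0
  refine ⟨fun _ => pr (PP S), fun _ => pr (QQ S), cont_of fP (gP S hG) ?_ ?_,
    cont_of fQ (gQ S hG) ?_ ?_, ?_⟩
  · have := dist_pr (PP S) 0
    rw [sub_zero] at this
    linarith
  · intro q hq hd
    refine P_near S hG hq ?_
    have h2 := dist_triangle q (pr 0) (pr (PP S))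
    have h3 := dist_pr 0 (PP S)
    rw [zero_sub, norm_neg] at h3
    linarith
  · have := dist_pr (QQ S) cQ
    linarith
  · intro q hq hd
    refine Q_near S hG hq ?_
    have h2 := dist_triangle q (pr cQ) (pr (QQ S))
    have h3 := dist_pr cQ (QQ S)
    rw [norm_sub_rev] at h3
    linarith
  · intro r hr hgr Λ Γ k l hP hQ
    have hno : ¬ RobustCycle pr r g Λ Γ k l :=
      no_robust S (by rw [hSδ]; linarith) hG hH hGc hHc hr hgr hP hQ
    refine ⟨hno, fun hR => hno ?_⟩
    obtain ⟨ε₀, h0, h⟩ := hR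
    refine ⟨ε₀, h0, fun ε hε => ?_⟩
    obtain ⟨j, hj, η, hη, h⟩ := h ε hε
    refine ⟨j, hj, η, hη, fun g' hg' hc' => ?_⟩
    obtain ⟨hΛ, hΓ, c1, c2, c3⟩ := h g' hg' hc'
    exact ⟨hΛ, hΓ, c1, c2, c3.cycle⟩

end Pool.Agent.Results.MP_4ecd89_an.FragileCycle
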